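import Pool.Agent.Q112.ML.Stm

/-!
# Project ML, job UP: the upper bounds for the error in all classes
-/

set_option autoImplicit false

namespace Pool.Agent.Q241.ML

open Finset Filter MeasureTheory ProbabilityTheory Pool.Agent.Q112.LE Pool.Agent.Q112.ML
open Pool.Agent.Q120.GM hiding cls
open scoped Topology

theorem rate_zero : rate 0 = 0 := by simp [rate]

theorem rate_neg_one : rate (-1) = 1 := by simp [rate]

theorem cls_filter {x N : ℕ} (h : x ≤ N) (q a : ℕ) : (cls N q a).filter (fun n => n ≤ x) = cls x q a := by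
  ext n
  simp only [cls, mem_filter, mem_Icc]
  constructor
  · rintro ⟨⟨⟨h1, _⟩, h2⟩, h3⟩
    exact ⟨⟨h1, h3⟩, h2⟩
  · rintro ⟨⟨h1, h3⟩, h2⟩
    exact ⟨⟨⟨h1, h3.trans h⟩, h2⟩, h3⟩

theorem cls_mod (x q a : ℕ) : cls x q a = cls x q (a % q) := by
  ext n
  simp only [cls, mem_filter, Nat.ModEq, Nat.mod_mod]

theorem gcd_mod (q a Q : ℕ) : Nat.gcd (a % q) (Nat.gcd q Q) = Nat.gcd a (Nat.gcd q Q) := by
  have h : a % q ≡ a [MOD Nat.gcd q Q] := (Nat.mod_modEq a q).of_dvd (Nat.gcd_dvd_left q Q)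
  exact h.gcd_eq

/-- The exponent. -/
noncomputable def RR (ε : ℝ) (q N : ℕ) : ℝ :=
  (1 + ε / 4) * (2 * Real.log q + Real.log (Real.log N)) * Real.log N

/-- The bound for the expected value. -/
noncomputable def LL (Q : ℕ) (C : ℝ) (q N : ℕ) : ℝ := kap Q q * ((N : ℝ) / q) + C

theorem RR_pos {ε : ℝ} (hε : 0 < ε) {q N : ℕ} (hN : 1 < Real.log N) : 0 < RR ε q N := by
  unfold RR
  have h1 : 0 < Real.log (Real.log N) := Real.log_pos hN
  have h2 : 0 ≤ Real.log q := Real.log_natCast_nonneg q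
  have h3 : 0 < Real.log (N : ℝ) := by linarith
  positivity

theorem LL_pos {Q : ℕ} (hQ : 1 ≤ Q) {C : ℝ} (hC : 0 < C) {q N : ℕ} : 0 < LL Q C q N := by
  unfold LL
  have := kap_pos hQ q
  positivity

theorem expo {ε : ℝ} {q N : ℕ} (hq : 1 ≤ q) (hN : 1 < Real.log N) :
    Real.exp (-(RR ε q N / Real.log N)) = (q : ℝ) ^ (-(2 + ε / 2)) * Real.log N ^ (-(1 + ε / 4)) := by
  have h3 : 0 < Real.log (N : ℝ) := by linarith
  have hq0 : (0 : ℝ) < q := by exact_mod_cast hq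
  rw [Real.rpow_def_of_pos hq0, Real.rpow_def_of_pos h3, ← Real.exp_add]
  congr 1
  unfold RR
  field_simp
  ring

/-- The set of the bad outcomes. -/
def Bad {Ω : Type} (A : Ω → Set ℕ) (Q : ℕ) (C ε : ℝ) (rU rD : ℝ → ℝ) (N : ℕ) : Set Ω :=
  ⋃ q ∈ Icc 1 N, ⋃ a ∈ (range q).filter (fun a => Nat.gcd a (Nat.gcd q Q) = 1),
    ({ω | ∃ x : ℕ, LL Q C q N * rU (RR ε q N / LL Q C q N) ≤
        ∑ n ∈ (cls N q a).filter (fun n => n ≤ x), Real.log n * (ind (A ω) n - level Q n)} ∪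
      {ω | RR ε q N < LL Q C q N ∧ ∃ x : ℕ, LL Q C q N * rD (RR ε q N / LL Q C q N) ≤
        ∑ n ∈ (cls N q a).filter (fun n => n ≤ x), Real.log n * (level Q n - ind (A ω) n)})

theorem bad_le (hCH : S_CH) {Ω : Type} [MeasurableSpace Ω] {μ : Measure Ω} [IsProbabilityMeasure μ]
    {A : Ω → Set ℕ} {Q : ℕ} (hQ : 1 ≤ Q) (hA : IsModel μ (level Q) A) {C : ℝ} (hC0 : 0 < C)
    (hC : ∀ x q a : ℕ, 1 ≤ q → Nat.gcd a (Nat.gcd q Q) = 1 →
      qq Q * (((cls x q a).filter (fun n => Nat.Coprime n Q)).card : ℝ) ≤ kap Q q * ((x : ℝ) / q) + C)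
    {rU rD : ℝ → ℝ} (hU : ∀ T, 0 ≤ T → 0 ≤ rU T ∧ rate (rU T) = T)
    (hD : ∀ T, 0 ≤ T → T ≤ 1 → 0 ≤ rD T ∧ rD T ≤ 1 ∧ rate (-rD T) = T)
    {ε : ℝ} (hε : 0 < ε) {N : ℕ} (hN : 1 < Real.log N) :
    μ.real (Bad A Q C ε rU rD N) ≤
      2 * (∑' n : ℕ, (n : ℝ) ^ (-(1 + ε / 2))) * Real.log N ^ (-(1 + ε / 4)) := by
  have hL : 0 < Real.log (N : ℝ) := by linarith
  have hN2 : 2 ≤ N := by
    by_contra h
    have h1 : N = 0 ∨ N = 1 := by omega
    rcases h1 with h1 | h1 <;> rw [h1] at hN <;> simp at hN <;> linarith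
  have hsum : Summable (fun n : ℕ => (n : ℝ) ^ (-(1 + ε / 2))) := by
    rw [Real.summable_nat_rpow]
    linarith
  have hev : ∀ q ∈ Icc 1 N, ∀ a ∈ (range q).filter (fun a => Nat.gcd a (Nat.gcd q Q) = 1),
      μ.real ({ω | ∃ x : ℕ, LL Q C q N * rU (RR ε q N / LL Q C q N) ≤
        ∑ n ∈ (cls N q a).filter (fun n => n ≤ x), Real.log n * (ind (A ω) n - level Q n)} ∪
      {ω | RR ε q N < LL Q C q N ∧ ∃ x : ℕ, LL Q C q N * rD (RR ε q N / LL Q C q N) ≤
        ∑ n ∈ (cls N q a).filter (fun n => n ≤ x), Real.log n * (level Q n - ind (A ω) n)}) ≤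
      2 * ((q : ℝ) ^ (-(2 + ε / 2)) * Real.log N ^ (-(1 + ε / 4))) := by
    intro q hq a ha
    rw [mem_Icc] at hq
    rw [mem_filter, mem_range] at ha
    have hR : 0 < RR ε q N := RR_pos hε hN
    have hΛ : 0 < LL Q C q N := LL_pos hQ hC0
    have hW : ∀ n ∈ cls N q a, 1 ≤ n ∧ n ≤ N := by
      intro n hn
      unfold cls at hn
      rw [mem_filter, mem_Icc] at hn
      exact hn.1
    have hcard := hC N q a hq.1 ha.2
    rw [← expo hq.1 hN, two_mul]
    refine (measureReal_union_le _ _).trans (add_le_add ?_ ?_)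
    · obtain ⟨h1, h2⟩ := hU (RR ε q N / LL Q C q N) (by positivity)
      have h3 : 0 < rU (RR ε q N / LL Q C q N) := by
        rcases h1.lt_or_eq with h | h
        · exact h
        · rw [← h, rate_zero] at h2
          have : 0 < RR ε q N / LL Q C q N := by positivity
          linarith
      have h4 := (hCH Ω μ A Q hQ hA (cls N q a) N (LL Q C q N) (LL Q C q N * rU (RR ε q N / LL Q C q N)) hN2 hW
        hcard hΛ (by positivity)).1
      rw [mul_div_cancel_left₀ _ hΛ.ne', h2] at h4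
      refine h4.trans (le_of_eq ?_)
      congr 1
      field_simp
    · by_cases hRL : RR ε q N < LL Q C q N
      · have h0 : 0 < RR ε q N / LL Q C q N := by positivity
        have h01 : RR ε q N / LL Q C q N < 1 := by rw [div_lt_one hΛ]; exact hRL
        obtain ⟨h1, h1', h2⟩ := hD (RR ε q N / LL Q C q N) h0.le h01.le
        have h3 : 0 < rD (RR ε q N / LL Q C q N) := by
          rcases h1.lt_or_eq with h | h
          · exact h
          · rw [← h, neg_zero, rate_zero] at h2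
            linarith
        have h3' : rD (RR ε q N / LL Q C q N) < 1 := by
          rcases h1'.lt_or_eq with h | h
          · exact h
          · rw [h, rate_neg_one] at h2
            linarith
        have h4 := (hCH Ω μ A Q hQ hA (cls N q a) N (LL Q C q N) (LL Q C q N * rD (RR ε q N / LL Q C q N)) hN2 hW
          hcard hΛ (by positivity)).2 (by nlinarith)
        rw [mul_div_cancel_left₀ _ hΛ.ne', h2] at h4
        have h5 : {ω | RR ε q N < LL Q C q N ∧ ∃ x : ℕ, LL Q C q N * rD (RR ε q N / LL Q C q N) ≤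
            ∑ n ∈ (cls N q a).filter (fun n => n ≤ x), Real.log n * (level Q n - ind (A ω) n)} =
            {ω | ∃ x : ℕ, LL Q C q N * rD (RR ε q N / LL Q C q N) ≤
            ∑ n ∈ (cls N q a).filter (fun n => n ≤ x), Real.log n * (level Q n - ind (A ω) n)} := by
          ext ω
          simp only [Set.mem_setOf_eq, hRL, true_and]
        rw [h5]
        refine h4.trans (le_of_eq ?_)
        congr 1
        field_simp
      · have h5 : {ω | RR ε q N < LL Q C q N ∧ ∃ x : ℕ, LL Q C q N * rD (RR ε q N / LL Q C q N) ≤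
            ∑ n ∈ (cls N q a).filter (fun n => n ≤ x), Real.log n * (level Q n - ind (A ω) n)} = ∅ := by
          ext ω
          simp only [Set.mem_setOf_eq, hRL, false_and, Set.mem_empty_iff_false]
        rw [h5, measureReal_empty]
        exact (Real.exp_pos _).le
  unfold Bad
  refine (measureReal_biUnion_finset_le _ _).trans ?_
  have h1 : ∀ q ∈ Icc 1 N, μ.real (⋃ a ∈ (range q).filter (fun a => Nat.gcd a (Nat.gcd q Q) = 1),
    ({ω | ∃ x : ℕ, LL Q C q N * rU (RR ε q N / LL Q C q N) ≤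
        ∑ n ∈ (cls N q a).filter (fun n => n ≤ x), Real.log n * (ind (A ω) n - level Q n)} ∪
      {ω | RR ε q N < LL Q C q N ∧ ∃ x : ℕ, LL Q C q N * rD (RR ε q N / LL Q C q N) ≤
        ∑ n ∈ (cls N q a).filter (fun n => n ≤ x), Real.log n * (level Q n - ind (A ω) n)})) ≤
      2 * Real.log N ^ (-(1 + ε / 4)) * (q : ℝ) ^ (-(1 + ε / 2)) := by
    intro q hq
    refine (measureReal_biUnion_finset_le _ _).trans ((sum_le_sum (hev q hq)).trans ?_)
    rw [sum_const, nsmul_eq_mul]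
    have hq0 : (0 : ℝ) < q := by
      rw [mem_Icc] at hq
      exact_mod_cast hq.1
    have h2 : ((((range q).filter (fun a => Nat.gcd a (Nat.gcd q Q) = 1)).card : ℕ) : ℝ) ≤ q := by
      have := card_filter_le (range q) (fun a => Nat.gcd a (Nat.gcd q Q) = 1)
      rw [card_range] at this
      exact_mod_cast this
    have h3 : (q : ℝ) * (q : ℝ) ^ (-(2 + ε / 2)) = (q : ℝ) ^ (-(1 + ε / 2)) := by
      rw [← Real.rpow_one_add' hq0.le (by linarith)]
      congr 1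
      ring
    have h4 : 0 ≤ (q : ℝ) ^ (-(2 + ε / 2)) := Real.rpow_nonneg hq0.le _
    have h5 : 0 ≤ Real.log (N : ℝ) ^ (-(1 + ε / 4)) := Real.rpow_nonneg hL.le _
    rw [← h3]
    calc _ ≤ (q : ℝ) * (2 * ((q : ℝ) ^ (-(2 + ε / 2)) * Real.log N ^ (-(1 + ε / 4)))) :=
          mul_le_mul_of_nonneg_right h2 (by positivity)
      _ = _ := by ring
  refine (sum_le_sum h1).trans ?_
  rw [← mul_sum]
  have h6 : ∑ q ∈ Icc 1 N, (q : ℝ) ^ (-(1 + ε / 2)) ≤ ∑' n : ℕ, (n : ℝ) ^ (-(1 + ε / 2)) :=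
    hsum.sum_le_tsum _ (fun i _ => Real.rpow_nonneg (Nat.cast_nonneg i) _)
  have h5 : 0 ≤ Real.log (N : ℝ) ^ (-(1 + ε / 4)) := Real.rpow_nonneg hL.le _
  nlinarith


/-! ## Borel–Cantelli -/

/-- The ends of the blocks. -/
noncomputable def NN (δ : ℝ) (j : ℕ) : ℕ := ⌊(1 + δ) ^ j⌋₊

theorem log_NN {δ : ℝ} (hδ : 0 < δ) : ∀ᶠ j : ℕ in atTop, j * (Real.log (1 + δ) / 2) ≤ Real.log (NN δ j) := by
  have hl : 0 < Real.log (1 + δ) := Real.log_pos (by linarith)
  have h1 : Tendsto (fun j : ℕ => (j : ℝ) * (Real.log (1 + δ) / 2)) atTop atTop :=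
    tendsto_natCast_atTop_atTop.atTop_mul_const (by positivity)
  filter_upwards [h1.eventually_ge_atTop (Real.log 2)] with j hj
  have h2 : (1 : ℝ) ≤ (1 + δ) ^ j := one_le_pow₀ (by linarith)
  have h3 : (1 + δ) ^ j / 2 ≤ (NN δ j : ℝ) := by
    have h4 : (1 + δ) ^ j < (NN δ j : ℝ) + 1 := Nat.lt_floor_add_one _
    have h5 : (1 : ℝ) ≤ NN δ j := by
      have : 1 ≤ NN δ j := Nat.le_floor (by simpa using h2)
      exact_mod_cast this
    linarith
  have h6 : Real.log ((1 + δ) ^ j / 2) ≤ Real.log (NN δ j) := Real.log_le_log (by positivity) h3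
  rw [Real.log_div (by positivity) (by norm_num), Real.log_pow] at h6
  nlinarith

theorem ae_good (hCH : S_CH) {Ω : Type} [MeasurableSpace Ω] {μ : Measure Ω} [IsProbabilityMeasure μ]
    {A : Ω → Set ℕ} {Q : ℕ} (hQ : 1 ≤ Q) (hA : IsModel μ (level Q) A) {C : ℝ} (hC0 : 0 < C)
    (hC : ∀ x q a : ℕ, 1 ≤ q → Nat.gcd a (Nat.gcd q Q) = 1 →
      qq Q * (((cls x q a).filter (fun n => Nat.Coprime n Q)).card : ℝ) ≤ kap Q q * ((x : ℝ) / q) + C)
    {rU rD : ℝ → ℝ} (hU : ∀ T, 0 ≤ T → 0 ≤ rU T ∧ rate (rU T) = T)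
    (hD : ∀ T, 0 ≤ T → T ≤ 1 → 0 ≤ rD T ∧ rD T ≤ 1 ∧ rate (-rD T) = T)
    {ε : ℝ} (hε : 0 < ε) {δ : ℝ} (hδ : 0 < δ) :
    ∀ᵐ ω ∂μ, ∀ᶠ j : ℕ in atTop, ω ∉ Bad A Q C ε rU rD (NN δ j) := by
  have hl : 0 < Real.log (1 + δ) := Real.log_pos (by linarith)
  have hsum : Summable (fun j : ℕ => 2 * (∑' n : ℕ, (n : ℝ) ^ (-(1 + ε / 2))) *
      (Real.log (1 + δ) / 2) ^ (-(1 + ε / 4)) * (j : ℝ) ^ (-(1 + ε / 4))) := by
    refine Summable.mul_left _ ?_
    rw [Real.summable_nat_rpow]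
    linarith
  refine bc hsum ?_
  have h1 : Tendsto (fun j : ℕ => (j : ℝ) * (Real.log (1 + δ) / 2)) atTop atTop :=
    tendsto_natCast_atTop_atTop.atTop_mul_const (by positivity)
  filter_upwards [log_NN hδ, h1.eventually_gt_atTop 1, eventually_ge_atTop 1] with j hj hj1 hj2
  have h2 := bad_le hCH hQ hA hC0 hC hU hD hε (show 1 < Real.log (NN δ j : ℝ) by linarith)
  refine h2.trans ?_
  have hS : 0 ≤ ∑' n : ℕ, (n : ℝ) ^ (-(1 + ε / 2)) := tsum_nonneg (fun n => Real.rpow_nonneg (Nat.cast_nonneg n) _)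
  have h3 : Real.log (NN δ j : ℝ) ^ (-(1 + ε / 4)) ≤ ((j : ℝ) * (Real.log (1 + δ) / 2)) ^ (-(1 + ε / 4)) :=
    Real.rpow_le_rpow_of_nonpos (by linarith) hj (by linarith)
  rw [Real.mul_rpow (Nat.cast_nonneg j) (by positivity)] at h3
  calc _ ≤ 2 * (∑' n : ℕ, (n : ℝ) ^ (-(1 + ε / 2))) * ((j : ℝ) ^ (-(1 + ε / 4)) *
          (Real.log (1 + δ) / 2) ^ (-(1 + ε / 4))) := mul_le_mul_of_nonneg_left h3 (by positivity)
    _ = _ := by ring

/-! ## The deterministic part -/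

theorem psi_sub (S : Set ℕ) (Q x q a : ℕ) :
    ∑ n ∈ cls x q a, Real.log n * (ind S n - level Q n) =
      psi S x q a - ∑ n ∈ cls x q a, Real.log n * level Q n := by
  unfold psi sm
  rw [← sum_sub_distrib]
  exact sum_congr rfl (fun n _ => by ring)

theorem sub_psi (S : Set ℕ) (Q x q a : ℕ) :
    ∑ n ∈ cls x q a, Real.log n * (level Q n - ind S n) =
      ∑ n ∈ cls x q a, Real.log n * level Q n - psi S x q a := by
  unfold psi sm
  rw [← sum_sub_distrib]
  exact sum_congr rfl (fun n _ => by ring)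

/-- The consequences of the absence of the bad event. -/
theorem good {Ω : Type} {A : Ω → Set ℕ} {Q : ℕ} {C ε : ℝ} {rU rD : ℝ → ℝ} {N : ℕ} {ω : Ω}
    (hC : ∀ x q a : ℕ, 1 ≤ q → Nat.gcd a (Nat.gcd q Q) = 1 →
      |∑ n ∈ cls x q a, Real.log n * level Q n - kap Q q * ((x : ℝ) / q)| ≤ C)
    (h : ω ∉ Bad A Q C ε rU rD N) {x q a : ℕ} (hx : x ≤ N) (hq : 1 ≤ q) (hqN : q ≤ x)
    (hg : Nat.gcd a (Nat.gcd q Q) = 1) :
    psi (A ω) x q a ≤ kap Q q * ((x : ℝ) / q) + C + LL Q C q N * rU (RR ε q N / LL Q C q N) ∧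
    (RR ε q N < LL Q C q N →
      kap Q q * ((x : ℝ) / q) - C - LL Q C q N * rD (RR ε q N / LL Q C q N) ≤ psi (A ω) x q a) := by
  have hcls : cls x q a = cls x q (a % q) := cls_mod x q a
  have hpsi : psi (A ω) x q a = psi (A ω) x q (a % q) := by
    unfold psi
    rw [hcls]
  rw [hpsi]
  have hg' : Nat.gcd (a % q) (Nat.gcd q Q) = 1 := by rw [gcd_mod]; exact hg
  have hmean := abs_le.1 (hC x q (a % q) hq hg')
  have h1 : ω ∉ ({ω | ∃ x : ℕ, LL Q C q N * rU (RR ε q N / LL Q C q N) ≤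
        ∑ n ∈ (cls N q (a % q)).filter (fun n => n ≤ x), Real.log n * (ind (A ω) n - level Q n)} ∪
      {ω | RR ε q N < LL Q C q N ∧ ∃ x : ℕ, LL Q C q N * rD (RR ε q N / LL Q C q N) ≤
        ∑ n ∈ (cls N q (a % q)).filter (fun n => n ≤ x), Real.log n * (level Q n - ind (A ω) n)}) := by
    intro h2
    apply h
    unfold Bad
    refine Set.mem_biUnion (x := q) (by rw [mem_coe, mem_Icc]; omega) ?_
    refine Set.mem_biUnion (x := a % q) ?_ h2
    rw [mem_coe, mem_filter, mem_range]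
    exact ⟨Nat.mod_lt _ (by omega), hg'⟩
  rw [Set.mem_union, not_or] at h1
  obtain ⟨h2, h3⟩ := h1
  simp only [Set.mem_setOf_eq, not_exists, not_and, not_le] at h2 h3
  constructor
  · have h4 := h2 x
    rw [cls_filter hx, psi_sub] at h4
    linarith [hmean.2]
  · intro h5
    have h4 := h3 h5 x
    rw [cls_filter hx, sub_psi] at h4
    linarith [hmean.1]

/-- The comparison of `x` and `N`. -/
theorem RR_le {ε : ℝ} (hε : 0 < ε) : ∀ᶠ x : ℕ in atTop, ∀ N q : ℕ, x ≤ N → (N : ℝ) ≤ 2 * x →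
    RR ε q N ≤ (1 + ε / 2) * (2 * Real.log q + Real.log (Real.log x)) * Real.log x := by
  obtain ⟨η, hη⟩ : ∃ η : ℝ, η = ε / (12 + 3 * ε) := ⟨_, rfl⟩
  have hη0 : 0 < η := by rw [hη]; positivity
  have hη1 : η ≤ 1 := by
    rw [hη, div_le_one (by positivity)]
    linarith
  have hη2 : (1 + ε / 4) * (1 + η) ^ 2 ≤ 1 + ε / 2 := by
    have h1 : (1 + η) ^ 2 ≤ 1 + 3 * η := by nlinarith
    have h2 : (1 + ε / 4) * (1 + 3 * η) = 1 + ε / 2 := by
      rw [hη]
      field_simp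
      ring
    calc (1 + ε / 4) * (1 + η) ^ 2 ≤ (1 + ε / 4) * (1 + 3 * η) := mul_le_mul_of_nonneg_left h1 (by positivity)
      _ = _ := h2
  have hl1 : Tendsto (fun x : ℕ => Real.log (x : ℝ)) atTop atTop :=
    Real.tendsto_log_atTop.comp tendsto_natCast_atTop_atTop
  have hl2 : Tendsto (fun x : ℕ => Real.log (Real.log (x : ℝ))) atTop atTop := Real.tendsto_log_atTop.comp hl1
  filter_upwards [hl1.eventually_ge_atTop (Real.log 2 / η), hl1.eventually_gt_atTop 1, hl2.eventually_ge_atTop 1,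
    eventually_ge_atTop 1] with x h1 h2 h3 h4 N q hxN hN
  have hx0 : (0 : ℝ) < x := by exact_mod_cast h4
  have hN0 : (0 : ℝ) < N := by exact_mod_cast (by omega : 0 < N)
  have hL0 : 0 < Real.log (x : ℝ) := by linarith
  have hlogN : Real.log (N : ℝ) ≤ (1 + η) * Real.log x := by
    have h5 : Real.log (N : ℝ) ≤ Real.log (2 * x) := Real.log_le_log hN0 hN
    rw [Real.log_mul (by norm_num) hx0.ne'] at h5
    rw [div_le_iff₀ hη0] at h1
    nlinarith
  have hlogN0 : Real.log (x : ℝ) ≤ Real.log N := Real.log_le_log hx0 (by exact_mod_cast hxN)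
  have hllN : Real.log (Real.log (N : ℝ)) ≤ (1 + η) * Real.log (Real.log x) := by
    have h5 : Real.log (Real.log (N : ℝ)) ≤ Real.log ((1 + η) * Real.log x) :=
      Real.log_le_log (by linarith) hlogN
    rw [Real.log_mul (by positivity) hL0.ne'] at h5
    have h6 : Real.log (1 + η) ≤ η := by
      have := Real.log_le_sub_one_of_pos (show 0 < 1 + η by positivity)
      linarith
    nlinarith
  have hllN0 : 0 < Real.log (Real.log (N : ℝ)) := Real.log_pos (by linarith)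
  have hlq : 0 ≤ Real.log (q : ℝ) := Real.log_natCast_nonneg q
  unfold RR
  have h7 : 2 * Real.log q + Real.log (Real.log N) ≤ (1 + η) * (2 * Real.log q + Real.log (Real.log x)) := by
    nlinarith
  calc (1 + ε / 4) * (2 * Real.log q + Real.log (Real.log N)) * Real.log N
      ≤ (1 + ε / 4) * ((1 + η) * (2 * Real.log q + Real.log (Real.log x))) * ((1 + η) * Real.log x) := by
        have h8 : 0 < 2 * Real.log q + Real.log (Real.log (N : ℝ)) := by linarith
        have h9 : 0 < Real.log (N : ℝ) := by linarith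
        gcongr
    _ = ((1 + ε / 4) * (1 + η) ^ 2) * ((2 * Real.log q + Real.log (Real.log x)) * Real.log x) := by ring
    _ ≤ (1 + ε / 2) * ((2 * Real.log q + Real.log (Real.log x)) * Real.log x) := by
        refine mul_le_mul_of_nonneg_right hη2 ?_
        have : 0 < Real.log (Real.log (x : ℝ)) := by linarith
        positivity
    _ = _ := by ring

theorem card_cls {x q : ℕ} (a : ℕ) (hq : 1 ≤ q) (hqx : q ≤ x) : ((cls x q a).card : ℝ) ≤ 2 * ((x : ℝ) / q) := by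
  have hq0 : (0 : ℝ) < q := by exact_mod_cast hq
  have h1 : cls x q a = (Ioc 0 x).filter (fun n => n ≡ a [MOD q]) := by
    unfold cls
    congr 1
  have h2 := Nat.Ioc_filter_modEq_card 0 x (show 0 < q by omega) a
  rw [← h1] at h2
  have h3 : (((cls x q a).card : ℤ) : ℝ) ≤ (x : ℝ) / q + 1 := by
    have h4 := Int.floor_le (((x : ℚ) - a) / q)
    have h5 := Int.lt_floor_add_one ((((0 : ℕ) : ℚ) - a) / q)
    have h6 : ((⌊((x : ℚ) - a) / q⌋ : ℤ) : ℚ) - ⌊(((0 : ℕ) : ℚ) - a) / q⌋ ≤ (x : ℚ) / q + 1 := by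
      have : ((x : ℚ) - a) / q - (((0 : ℕ) : ℚ) - a) / q = (x : ℚ) / q := by
        push_cast
        ring
      linarith
    clear h4 h5
    generalize ⌊((x : ℚ) - a) / q⌋ = U at h2 h6
    generalize ⌊(((0 : ℕ) : ℚ) - a) / q⌋ = V at h2 h6
    have h7 : ((((U : ℚ) - (V : ℚ)) : ℚ) : ℝ) ≤ (((x : ℚ) / q + 1 : ℚ) : ℝ) := Rat.cast_le.2 h6
    push_cast at h7
    rw [h2, Int.cast_max]
    refine max_le ?_ (by push_cast; positivity)
    push_cast
    exact h7
  have h8 : (1 : ℝ) ≤ (x : ℝ) / q := by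
    rw [one_le_div hq0]
    exact_mod_cast hqx
  rw [Int.cast_natCast] at h3
  linarith

theorem psi_nonneg (S : Set ℕ) (x q a : ℕ) : 0 ≤ psi S x q a := by
  unfold psi sm
  refine sum_nonneg (fun n _ => mul_nonneg (Real.log_natCast_nonneg n) ?_)
  unfold ind
  exact Set.indicator_nonneg (fun _ _ => zero_le_one) n

theorem psi_le (S : Set ℕ) {x q : ℕ} (a : ℕ) (hq : 1 ≤ q) (hqx : q ≤ x) :
    psi S x q a ≤ 2 * ((x : ℝ) / q) * Real.log x := by
  have h1 : psi S x q a ≤ ∑ n ∈ cls x q a, Real.log x := by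
    unfold psi sm
    refine sum_le_sum (fun n hn => ?_)
    unfold cls at hn
    rw [mem_filter, mem_Icc] at hn
    have h2 : ind S n ≤ 1 := by
      unfold ind
      exact Set.indicator_le_self' (fun _ _ => zero_le_one) n
    have h3 : Real.log (n : ℝ) ≤ Real.log x :=
      Real.log_le_log (by exact_mod_cast hn.1.1) (by exact_mod_cast hn.1.2)
    have h4 : 0 ≤ Real.log (n : ℝ) := Real.log_natCast_nonneg n
    nlinarith
  rw [sum_const, nsmul_eq_mul] at h1
  exact h1.trans (mul_le_mul_of_nonneg_right (card_cls a hq hqx) (Real.log_natCast_nonneg x))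

/-- The size of `LL`. -/
theorem LL_bounds {Q : ℕ} (hQ : 1 ≤ Q) {C δ : ℝ} (hC0 : 0 < C) {x N q : ℕ} (hx : x ≤ N)
    (hN : (N : ℝ) ≤ (1 + δ) * x) (hq : 1 ≤ q) (hqx : q ≤ x) :
    1 ≤ kap Q q * ((x : ℝ) / q) ∧ kap Q q * ((x : ℝ) / q) ≤ LL Q C q N ∧
    (C ≤ δ * (kap Q q * ((x : ℝ) / q)) → LL Q C q N ≤ (1 + 2 * δ) * (kap Q q * ((x : ℝ) / q))) := by
  have hq0 : (0 : ℝ) < q := by exact_mod_cast hq
  have h8 : (1 : ℝ) ≤ (x : ℝ) / q := by
    rw [one_le_div hq0]
    exact_mod_cast hqx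
  have hk := one_le_kap hQ q
  have hk0 : 0 < kap Q q := by linarith
  have h9 : (x : ℝ) / q ≤ (N : ℝ) / q := by
    have : (x : ℝ) ≤ N := by exact_mod_cast hx
    gcongr
  have h10 : (N : ℝ) / q ≤ (1 + δ) * ((x : ℝ) / q) := by
    rw [← mul_div_assoc]
    gcongr
  have h11 : kap Q q * ((x : ℝ) / q) ≤ kap Q q * ((N : ℝ) / q) := by gcongr
  have h12 : kap Q q * ((N : ℝ) / q) ≤ (1 + δ) * (kap Q q * ((x : ℝ) / q)) := by
    calc kap Q q * ((N : ℝ) / q) ≤ kap Q q * ((1 + δ) * ((x : ℝ) / q)) := by gcongr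
      _ = _ := by ring
  refine ⟨by nlinarith, ?_, ?_⟩
  · unfold LL
    linarith
  · intro h
    unfold LL
    linarith

theorem hl1 : Tendsto (fun x : ℕ => Real.log (x : ℝ)) atTop atTop :=
  Real.tendsto_log_atTop.comp tendsto_natCast_atTop_atTop

theorem hl2 : Tendsto (fun x : ℕ => Real.log (Real.log (x : ℝ))) atTop atTop := Real.tendsto_log_atTop.comp hl1

/-- From the square of a quantity to the quantity. -/
theorem of_sq {C κ t s : ℝ} (hκ : 0 < κ) (ht : 0 ≤ t) (h1 : (C / κ) ^ 2 ≤ s) (h2 : s ≤ t ^ 2) : C ≤ κ * t := by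
  have h3 : C / κ ≤ t := by
    by_contra h4
    push Not at h4
    nlinarith
  rw [div_le_iff₀ hκ] at h3
  linarith

theorem upper_det (hRT : S_RT) {Q : ℕ} (hQ : 1 ≤ Q) {C ε δ m : ℝ} (hε : 0 < ε) (hC0 : 0 < C) (hδ : 0 < δ)
    (hδ1 : δ ≤ 1) (hm0 : 0 ≤ m) (hm1 : m ≤ 1) (hm : (1 + ε / 2) / (1 + ε) ≤ m ^ 2) (hm2 : (1 + 2 * δ) * m < 1) :
    ∀ᶠ x : ℕ in atTop, ∀ N q : ℕ, x ≤ N → (N : ℝ) ≤ (1 + δ) * x → 1 ≤ q → q ≤ x → ∀ u r P : ℝ, 0 < u → 0 ≤ r →
      rate r = RR ε q N / LL Q C q N →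
      (1 + ε) * (2 * Real.log q + Real.log (Real.log x)) * Real.log x ≤ kap Q q * ((x : ℝ) / q) * rate u →
      P ≤ kap Q q * ((x : ℝ) / q) + C + LL Q C q N * r → P ≤ 2 * ((x : ℝ) / q) * Real.log x →
      P ≤ (1 + u) * (kap Q q * ((x : ℝ) / q)) := by
  obtain ⟨r1, r2, r3, r4, r5, r6, r7, r8, r9, r10, r11⟩ := hRT
  obtain ⟨κ, hκ⟩ : ∃ κ : ℝ, κ = 1 - (1 + 2 * δ) * m := ⟨_, rfl⟩
  have hκ0 : 0 < κ := by linarith
  filter_upwards [RR_le hε, hl1.eventually_ge_atTop 1, hl2.eventually_ge_atTop 1,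
    hl2.eventually_ge_atTop ((C / κ) ^ 2), hl1.eventually_ge_atTop (2 * Real.log (C / δ)),
    hl1.eventually_gt_atTop (108 * (C / δ) ^ 2), hl1.eventually_ge_atTop 4, eventually_ge_atTop 1]
    with x h1 h2 h3 h4 h5 h6 h6' hx1 N q hxN hN hq hqx u r P hu hr hrate hyp hP1 hP2
  obtain ⟨b1, b2, b3⟩ := LL_bounds hQ hC0 hxN hN hq hqx
  have hx0 : (0 : ℝ) < x := by exact_mod_cast hx1
  have hq0 : (0 : ℝ) < q := by exact_mod_cast hq
  obtain ⟨y, hy⟩ : ∃ y : ℝ, y = kap Q q * ((x : ℝ) / q) := ⟨_, rfl⟩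
  have hxq : (x : ℝ) / q ≤ y := by
    rw [hy]
    have := one_le_kap hQ q
    have h7 : 0 ≤ (x : ℝ) / q := by positivity
    nlinarith
  rw [← hy] at b1 b2 b3 hyp hP1 ⊢
  have hy0 : 0 < y := by linarith
  obtain ⟨L, hL⟩ : ∃ L : ℝ, L = Real.log x := ⟨_, rfl⟩
  rw [← hL] at h2 h3 h4 h5 h6 h6' hyp hP2
  have hlq : 0 ≤ Real.log (q : ℝ) := Real.log_natCast_nonneg q
  by_cases hyC : C ≤ δ * y
  · have b4 := b3 hyC
    have h7 : RR ε q N ≤ (1 + ε / 2) * (2 * Real.log q + Real.log L) * L := by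
      rw [hL]
      exact h1 N q hxN (hN.trans (by nlinarith))
    have h8 : RR ε q N ≤ m ^ 2 * (y * rate u) := by
      have h9 : (1 + ε / 2) / (1 + ε) * ((1 + ε) * (2 * Real.log q + Real.log L) * L) =
          (1 + ε / 2) * (2 * Real.log q + Real.log L) * L := by
        field_simp
      have h10 : 0 ≤ (1 + ε) * (2 * Real.log q + Real.log L) * L := by
        have : 0 < Real.log L := by linarith
        positivity
      calc RR ε q N ≤ (1 + ε / 2) / (1 + ε) * ((1 + ε) * (2 * Real.log q + Real.log L) * L) := by rw [h9]; exact h7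
        _ ≤ m ^ 2 * ((1 + ε) * (2 * Real.log q + Real.log L) * L) := mul_le_mul_of_nonneg_right hm h10
        _ ≤ m ^ 2 * (y * rate u) := mul_le_mul_of_nonneg_left hyp (sq_nonneg m)
    have h11 : rate r ≤ rate (m * u) := by
      refine le_trans ?_ (r4 m u hm0 hm1 hu.le)
      rw [hrate, div_le_iff₀ (by linarith)]
      have h12 : 0 ≤ rate u := by
        have h13 : 0 ≤ y * rate u := by
          refine le_trans ?_ hyp
          have : 0 < Real.log L := by linarith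
          positivity
        exact nonneg_of_mul_nonneg_right h13 hy0
      have h14 : 0 ≤ m ^ 2 * rate u := by positivity
      nlinarith
    have h12 : r ≤ m * u := by
      by_contra h13
      push Not at h13
      exact absurd h11 (not_le.2 (r2 _ _ (by positivity) h13))
    have h13 : LL Q C q N * r ≤ (1 + 2 * δ) * y * (m * u) := by
      have : 0 ≤ m * u := by positivity
      have h14 : 0 ≤ LL Q C q N := by linarith
      nlinarith
    have h14 : C ≤ κ * (u * y) := by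
      refine of_sq hκ0 (by positivity) h4 ?_
      have h15 := r1 u hu.le
      have h16 : Real.log L ≤ (1 + ε) * (2 * Real.log q + Real.log L) * L := by
        have h17 : 0 < Real.log L := by linarith
        have h18 : Real.log L ≤ (1 + ε) * (2 * Real.log q + Real.log L) := by nlinarith
        nlinarith
      have h17 : Real.log L ≤ y * (u ^ 2 / 2) := h16.trans (hyp.trans (by nlinarith))
      have h18 : y * (u ^ 2 / 2) ≤ (u * y) ^ 2 := by nlinarith [sq_nonneg u, mul_nonneg hy0.le (sq_nonneg u)]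
      linarith
    rw [hκ] at h14
    nlinarith
  · push Not at hyC
    -- trivial bound
    have hyC' : y < C / δ := by
      rw [lt_div_iff₀ hδ]
      linarith
    have h7 : L - Real.log (C / δ) ≤ Real.log q := by
      have h8 : Real.log ((x : ℝ) / q) ≤ Real.log (C / δ) :=
        Real.log_le_log (by positivity) (by linarith)
      rw [Real.log_div hx0.ne' hq0.ne'] at h8
      linarith
    have h8 : L ^ 2 ≤ y * rate u := by
      refine le_trans ?_ hyp
      have h9 : 0 < Real.log L := by linarith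
      have h10 : L ≤ 2 * Real.log q + Real.log L := by linarith
      have h11 : L ≤ (1 + ε) * (2 * Real.log q + Real.log L) := by nlinarith
      nlinarith
    have h9 : 2 * L ≤ u := by
      by_contra h10
      push Not at h10
      have h11 := r2 u (2 * L) hu.le h10
      have h12 : rate (2 * L) ≤ 6 * L * √(3 * L) := by
        unfold rate
        have h13 : Real.log (1 + 2 * L) ≤ 2 * √(3 * L) := by
          have h14 : Real.log (1 + 2 * L) ≤ Real.log (3 * L) := Real.log_le_log (by positivity) (by linarith)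
          have h15 : Real.log (3 * L) = 2 * Real.log (√(3 * L)) := by
            rw [Real.log_sqrt (by positivity)]
            ring
          have h16 := Real.log_le_sub_one_of_pos (show 0 < √(3 * L) by positivity)
          linarith
        have h17 : (1 + 2 * L) * Real.log (1 + 2 * L) ≤ (3 * L) * (2 * √(3 * L)) := by
          have : 0 ≤ Real.log (1 + 2 * L) := Real.log_nonneg (by linarith)
          gcongr
          linarith
        nlinarith
      have h13 : L ^ 2 < (C / δ) * (6 * L * √(3 * L)) := by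
        have h14 : 0 ≤ rate u := by
          by_contra h15
          push Not at h15
          nlinarith
        have h15 : 0 < 6 * L * √(3 * L) := by positivity
        nlinarith
      have h14 : L < (C / δ) * (6 * √(3 * L)) := by
        by_contra h15
        push Not at h15
        nlinarith
      have h15 : L ^ 2 < ((C / δ) * (6 * √(3 * L))) ^ 2 := by
        have : 0 < L := by linarith
        gcongr
      have h16 : ((C / δ) * (6 * √(3 * L))) ^ 2 = 108 * (C / δ) ^ 2 * L := by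
        rw [mul_pow, mul_pow, Real.sq_sqrt (by positivity)]
        ring
      rw [h16] at h15
      nlinarith
    calc P ≤ 2 * ((x : ℝ) / q) * L := hP2
      _ ≤ 2 * y * L := by gcongr
      _ = (2 * L) * y := by ring
      _ ≤ (1 + u) * y := mul_le_mul_of_nonneg_right (by linarith) hy0.le

theorem lower_det (hRT : S_RT) {Q : ℕ} (hQ : 1 ≤ Q) {C ε δ m : ℝ} (hε : 0 < ε) (hC0 : 0 < C) (hδ : 0 < δ)
    (hδ1 : δ ≤ 1) (hm0 : 0 ≤ m) (hm1 : m ≤ 1)
    (hm : ∀ v : ℝ, 0 ≤ v → v ≤ 1 → (1 + ε / 2) / (1 + ε) * rate (-v) ≤ rate (-(m * v)))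
    (hm2 : (1 + 2 * δ) * m < 1) :
    ∀ᶠ x : ℕ in atTop, ∀ N q : ℕ, x ≤ N → (N : ℝ) ≤ (1 + δ) * x → 1 ≤ q → q ≤ x → ∀ u : ℝ, 0 < u → u ≤ 1 →
      (1 + ε) * (2 * Real.log q + Real.log (Real.log x)) * Real.log x ≤ kap Q q * ((x : ℝ) / q) * rate (-u) →
      RR ε q N < LL Q C q N ∧ ∀ r P : ℝ, 0 ≤ r → r ≤ 1 → rate (-r) = RR ε q N / LL Q C q N →
      kap Q q * ((x : ℝ) / q) - C - LL Q C q N * r ≤ P →
      (1 - u) * (kap Q q * ((x : ℝ) / q)) ≤ P := by
  obtain ⟨r1, r2, r3, r4, r5, r6, r7, r8, r9, r10, r11⟩ := hRT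
  obtain ⟨κ, hκ⟩ : ∃ κ : ℝ, κ = 1 - (1 + 2 * δ) * m := ⟨_, rfl⟩
  have hκ0 : 0 < κ := by linarith
  filter_upwards [RR_le hε, hl1.eventually_ge_atTop 1, hl2.eventually_ge_atTop 1,
    hl2.eventually_ge_atTop ((C / κ) ^ 2), hl2.eventually_ge_atTop (C / δ), eventually_ge_atTop 1]
    with x h1 h2 h3 h4 h5 hx1 N q hxN hN hq hqx u hu hu1 hyp
  obtain ⟨b1, b2, b3⟩ := LL_bounds hQ hC0 hxN hN hq hqx
  have hx0 : (0 : ℝ) < x := by exact_mod_cast hx1
  have hq0 : (0 : ℝ) < q := by exact_mod_cast hq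
  obtain ⟨y, hy⟩ : ∃ y : ℝ, y = kap Q q * ((x : ℝ) / q) := ⟨_, rfl⟩
  rw [← hy] at b1 b2 b3 hyp ⊢
  have hy0 : 0 < y := by linarith
  obtain ⟨L, hL⟩ : ∃ L : ℝ, L = Real.log x := ⟨_, rfl⟩
  rw [← hL] at h2 h3 h4 h5 hyp
  have hlq : 0 ≤ Real.log (q : ℝ) := Real.log_natCast_nonneg q
  have h17 : 0 < Real.log L := by linarith
  obtain ⟨e1, e2⟩ := r5 u hu.le hu1
  have h16 : Real.log L ≤ (1 + ε) * (2 * Real.log q + Real.log L) * L := by
    have h18 : Real.log L ≤ (1 + ε) * (2 * Real.log q + Real.log L) := by nlinarith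
    nlinarith
  have h18 : Real.log L ≤ y * rate (-u) := h16.trans hyp
  have h19 : rate (-u) ≤ 1 := by nlinarith
  have h20 : 0 < rate (-u) := by
    have : 0 < u ^ 2 := by positivity
    linarith
  have h21 : Real.log L ≤ y := by nlinarith
  have hyC : C ≤ δ * y := by
    rw [div_le_iff₀ hδ] at h5
    nlinarith
  have b4 := b3 hyC
  have h7 : RR ε q N ≤ (1 + ε / 2) * (2 * Real.log q + Real.log L) * L := by
    rw [hL]
    exact h1 N q hxN (hN.trans (by nlinarith))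
  have h8 : RR ε q N ≤ (1 + ε / 2) / (1 + ε) * (y * rate (-u)) := by
    have h9 : (1 + ε / 2) / (1 + ε) * ((1 + ε) * (2 * Real.log q + Real.log L) * L) =
        (1 + ε / 2) * (2 * Real.log q + Real.log L) * L := by
      field_simp
    calc RR ε q N ≤ (1 + ε / 2) / (1 + ε) * ((1 + ε) * (2 * Real.log q + Real.log L) * L) := by rw [h9]; exact h7
      _ ≤ (1 + ε / 2) / (1 + ε) * (y * rate (-u)) := mul_le_mul_of_nonneg_left hyp (by positivity)
  have hθ1 : (1 + ε / 2) / (1 + ε) < 1 := by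
    rw [div_lt_one (by positivity)]
    linarith
  have hθ0 : 0 < (1 + ε / 2) / (1 + ε) := by positivity
  have hRL : RR ε q N < LL Q C q N := by
    have h9 : y * rate (-u) ≤ y := by nlinarith
    have h10 : (1 + ε / 2) / (1 + ε) * (y * rate (-u)) < y := by
      have : 0 < y * rate (-u) := by positivity
      nlinarith
    linarith
  refine ⟨hRL, fun r P hr hr1 hrate hP => ?_⟩
  have h11 : rate (-r) ≤ rate (-(m * u)) := by
    refine le_trans ?_ (hm u hu.le hu1)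
    rw [hrate, div_le_iff₀ (by linarith)]
    have h14 : 0 ≤ (1 + ε / 2) / (1 + ε) * rate (-u) := by positivity
    nlinarith
  have h12 : r ≤ m * u := by
    by_contra h13
    push Not at h13
    exact absurd h11 (not_le.2 (r3 _ _ (by positivity) h13 hr1))
  have h13 : LL Q C q N * r ≤ (1 + 2 * δ) * y * (m * u) := by
    have : 0 ≤ m * u := by positivity
    have h14 : 0 ≤ LL Q C q N := by linarith
    nlinarith
  have h14 : C ≤ κ * (u * y) := by
    refine of_sq hκ0 (by positivity) h4 ?_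
    have h22 : y * rate (-u) ≤ y * u ^ 2 := mul_le_mul_of_nonneg_left e2 hy0.le
    have h23 : y * u ^ 2 ≤ (u * y) ^ 2 := by nlinarith [sq_nonneg u, mul_nonneg hy0.le (sq_nonneg u)]
    linarith
  rw [hκ] at h14
  nlinarith

/-- **Job UP.** -/
theorem up : S_CH → S_MN → S_RT → S_UP := by
  intro hCH hMN hRT Ω _ μ _ A Q hQ hA ε hε
  obtain ⟨C, hC0, hC⟩ := hMN Q hQ
  have hRT' := hRT
  obtain ⟨r1, r2, r3, r4, r5, r6, r7, r8, r9, r10, r11⟩ := hRT'
  obtain ⟨rU, hU⟩ : ∃ rU : ℝ → ℝ, ∀ T, 0 ≤ T → 0 ≤ rU T ∧ rate (rU T) = T := by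
    choose f hf using r7
    refine ⟨fun T => if h : 0 ≤ T then f T h else 0, fun T hT => ?_⟩
    simp only [hT, dif_pos]
    exact hf T hT
  obtain ⟨rD, hD⟩ : ∃ rD : ℝ → ℝ, ∀ T, 0 ≤ T → T ≤ 1 → 0 ≤ rD T ∧ rD T ≤ 1 ∧ rate (-rD T) = T := by
    choose f hf using r8
    refine ⟨fun T => if h : 0 ≤ T ∧ T ≤ 1 then f T h.1 h.2 else 0, fun T hT hT1 => ?_⟩
    have h : 0 ≤ T ∧ T ≤ 1 := ⟨hT, hT1⟩
    simp only [h, and_self, dif_pos]
    exact hf T hT hT1
  obtain ⟨θ, hθ⟩ : ∃ θ : ℝ, θ = (1 + ε / 2) / (1 + ε) := ⟨_, rfl⟩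
  have hθ0 : 0 < θ := by rw [hθ]; positivity
  have hθ1 : θ < 1 := by
    rw [hθ, div_lt_one (by positivity)]
    linarith
  obtain ⟨c, hc0, hc1, hc⟩ := r6 (1 - θ) (by linarith)
  obtain ⟨m, hm⟩ : ∃ m : ℝ, m = max (√θ) c := ⟨_, rfl⟩
  have hcm : c ≤ m := by rw [hm]; exact le_max_right _ _
  have hθm : √θ ≤ m := by rw [hm]; exact le_max_left _ _
  have hm1 : m < 1 := by
    rw [hm]
    refine max_lt ?_ hc1
    rw [Real.sqrt_lt' one_pos]
    linarith
  have hm0 : 0 < m := lt_of_lt_of_le hc0 hcm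
  have hmθ : θ ≤ m ^ 2 := by
    have h1 := Real.sq_sqrt hθ0.le
    have h2 : 0 ≤ √θ := Real.sqrt_nonneg θ
    nlinarith
  obtain ⟨δ, hδ⟩ : ∃ δ : ℝ, δ = (1 - m) / 4 := ⟨_, rfl⟩
  have hδ0 : 0 < δ := by rw [hδ]; linarith
  have hδ1 : δ ≤ 1 := by rw [hδ]; linarith
  have hm2 : (1 + 2 * δ) * m < 1 := by
    rw [hδ]
    nlinarith
  have hcard : ∀ x q a : ℕ, 1 ≤ q → Nat.gcd a (Nat.gcd q Q) = 1 →
      qq Q * (((cls x q a).filter (fun n => Nat.Coprime n Q)).card : ℝ) ≤ kap Q q * ((x : ℝ) / q) + C := by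
    intro x q a hq hg
    have h1 := (abs_le.1 (hC x q a hq hg).2).2
    linarith
  filter_upwards [ae_good hCH hQ hA hC0 hcard hU hD hε hδ0] with ω hω
  obtain ⟨j0, hj0⟩ := eventually_atTop.1 hω
  have hup := upper_det hRT hQ (C := C) hε hC0 hδ0 hδ1 hm0.le hm1.le (by rw [← hθ]; exact hmθ) hm2
  have hlo := lower_det hRT hQ (C := C) hε hC0 hδ0 hδ1 hm0.le hm1.le (fun v hv hv1 => by
    have h1 := hc m v hcm hm1.le hv hv1
    rw [← hθ]
    have h2 : 1 - (1 - θ) = θ := by ring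
    rw [h2] at h1
    exact h1) hm2
  filter_upwards [hup, hlo, eventually_ge_atTop 1, eventually_ge_atTop ⌈(1 + δ) ^ j0⌉₊, hl1.eventually_gt_atTop 1]
    with x hup hlo hx1 hxj hlx q a hq hqx hg u hu
  have hx1' : (1 : ℝ) ≤ x := by exact_mod_cast hx1
  obtain ⟨j, hj1, hj2⟩ := exists_nat_pow_near hx1' (show (1 : ℝ) < 1 + δ by linarith)
  have hjj : j0 ≤ j + 1 := by
    by_contra h
    push Not at h
    have h1 : (1 + δ) ^ (j + 1) ≤ (1 + δ) ^ j0 := pow_le_pow_right₀ (by linarith) h.le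
    have h2 : (1 + δ) ^ j0 ≤ x := Nat.ceil_le.1 hxj
    linarith
  have hgood := hj0 (j + 1) hjj
  have hxN : x ≤ NN δ (j + 1) := Nat.le_floor hj2.le
  have hN : ((NN δ (j + 1) : ℕ) : ℝ) ≤ (1 + δ) * x := by
    have h1 : ((NN δ (j + 1) : ℕ) : ℝ) ≤ (1 + δ) ^ (j + 1) := Nat.floor_le (by positivity)
    rw [pow_succ] at h1
    nlinarith
  have hlN : 1 < Real.log (NN δ (j + 1) : ℝ) := by
    refine hlx.trans_le (Real.log_le_log (by linarith) ?_)
    exact_mod_cast hxN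
  obtain ⟨g1, g2⟩ := good (fun x q a h1 h2 => (hC x q a h1 h2).1) hgood hxN hq hqx hg
  have hR : 0 < RR ε q (NN δ (j + 1)) := RR_pos hε hlN
  have hΛ : 0 < LL Q C q (NN δ (j + 1)) := LL_pos hQ hC0
  constructor
  · intro hyp
    obtain ⟨u1, u2⟩ := hU (RR ε q (NN δ (j + 1)) / LL Q C q (NN δ (j + 1))) (by positivity)
    exact hup _ q hxN hN hq hqx u _ _ hu u1 u2 hyp g1 (psi_le (A ω) a hq hqx)
  · intro hu1 hyp
    obtain ⟨l1, l2⟩ := hlo _ q hxN hN hq hqx u hu hu1 hyp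
    obtain ⟨d1, d2, d3⟩ := hD (RR ε q (NN δ (j + 1)) / LL Q C q (NN δ (j + 1))) (by positivity)
      (by rw [div_le_one hΛ]; exact l1.le)
    exact l2 _ _ d1 d2 d3 (g2 l1)

end Pool.Agent.Q241.ML
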